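import Pool.Agent.H2NS.Fin
import Pool.Agent.H2NS.Form

/-!
A Serrin criterion for one helical part of the velocity, outside a two-dimensional set of
frequencies, where the helicity and the set may depend on the time in an arbitrary way.

Periodic smooth solutions `IsSol ν T u P`, the sup-norm counting condition `DimTwo A Q`, the
Fourier coefficients `fr`, the characters `ee`, the cell `cube`, the partial derivatives `pd` and
`energy` are in `Pool.Agent.H459R3.NS.Defs`.
-/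

open MeasureTheory Set Filter Topology H459R3.NS
open scoped ENNReal ContDiff

set_option autoImplicit false

namespace Pool.Agent.Results.MP_6bf1e5_an.HelicalSerrin

open Classical in
/-- The part of the field `v` with helicity `s` and with frequencies outside `Q`: the sum over the
frequencies `k ≠ 0`, `k ∉ Q`, of `(1/2) (v̂(k) + s i k × v̂(k) / |k|) exp (2 π i k · x)`. -/
noncomputable def helPart (s : ℝ) (Q : Set K3) (v : V → V) (x : V) (i : Fin 3) : ℝ :=
  (∑' k : K3, (if k = 0 ∨ k ∈ Q then 0 else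
    1 / 2 * (fr (fun y => v y i) k + s * Complex.I *
      ((k (i + 1) : ℂ) * fr (fun y => v y (i + 2)) k - (k (i + 2) : ℂ) * fr (fun y => v y (i + 1)) k)
      / (Real.sqrt (∑ j, (k j : ℝ) ^ 2) : ℂ))) * ee k x).re

/-- The square of the critical norm: `∑ᵢ ∑ₖ |k| |v̂ᵢ(k)|²`. -/
noncomputable def crit (v : V → V) : ℝ :=
  ∑ i, ∑' k : K3, Real.sqrt (∑ j, (k j : ℝ) ^ 2) * ‖fr (fun y => v y i) k‖ ^ 2

open Pool.Agent.H2NS

open Classical in
/-- coefficients in `Q` -/
noncomputable def cin (Q : Set K3) (a : K3 → ℂ) (k : K3) : ℂ := if k ∈ Q then a k else 0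

open Classical in
/-- coefficients outside `Q` -/
noncomputable def cout (Q : Set K3) (a : K3 → ℂ) (k : K3) : ℂ := if k ∈ Q then 0 else a k

theorem norm_cin_le (Q : Set K3) (a : K3 → ℂ) (k : K3) : ‖cin Q a k‖ ≤ ‖a k‖ := by
  unfold cin
  split_ifs
  · exact le_rfl
  · rw [norm_zero]; exact norm_nonneg _

theorem norm_cout_le (Q : Set K3) (a : K3 → ℂ) (k : K3) : ‖cout Q a k‖ ≤ ‖a k‖ := by
  unfold cout
  split_ifs
  · rw [norm_zero]; exact norm_nonneg _
  · exact le_rfl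

theorem rap_of_le {a b : K3 → ℂ} (ha : Rap a) (h : ∀ k, ‖b k‖ ≤ ‖a k‖) : Rap b := by
  intro n
  exact Summable.of_nonneg_of_le (fun k => by positivity)
    (fun k => mul_le_mul_of_nonneg_left (h k) (by positivity)) (ha n)

theorem helPart_eq (s : ℝ) (Q : Set K3) (v : V → V) (x : V) (i : Fin 3) :
    helPart s Q v x i = Rs (cout Q (hco s (fun j => fr (fun y => v y j)) i)) x := by
  unfold helPart Rs S cout hco crs eu Pool.Agent.W12.MD.R0.kk
  congr 1
  refine tsum_congr fun k => ?_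
  by_cases hk : k = 0
  · simp [hk]
  · by_cases hq : k ∈ Q
    · simp [hq]
    · simp [hk, hq]

theorem crit_eq (v : V → V) : crit v = Zn 1 v := by
  unfold crit Zn zn eu Pool.Agent.W12.MD.R0.kk
  exact Finset.sum_congr rfl fun i _ => tsum_congr fun k => by rw [pow_one]

theorem nrm_sq_energy {u : Fin 3 → V → ℝ} {s : ℝ} (hs : |s| = 1) (hu : ∀ j, SP (u j)) {w : V → ℝ}
    (hw : SP w) {i : Fin 3} (h : ∀ k, ‖fr w k‖ ≤ ‖hco s (fun j => fr (u j)) i k‖) :
    nrm w ^ 2 ≤ 3 * ∑ j, nrm (u j) ^ 2 ∧ grd w ^ 2 ≤ 3 * ∑ j, grd (u j) ^ 2 := by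
  have h1 : ∀ k, ‖fr w k‖ ^ 2 ≤ 3 * ∑ j, ‖fr (u j) k‖ ^ 2 := fun k =>
    (pow_le_pow_left₀ (norm_nonneg _) (h k) 2).trans (sq_hco_le hs (fun j => fr (u j)) i k)
  constructor
  · rw [nrm_fr hw]
    simp_rw [nrm_fr (hu _)]
    rw [← Summable.tsum_finsetSum fun j _ => summ_sq (rap_fr (hu j)), ← tsum_mul_left]
    exact Summable.tsum_le_tsum h1 (summ_sq (rap_fr hw))
      ((summable_sum fun j _ => summ_sq (rap_fr (hu j))).mul_left 3)
  · have hsum : ∀ {f : V → ℝ}, SP f →
        Summable fun k => 4 * Real.pi ^ 2 * Pool.Agent.W12.MD.R0.kk k * ‖fr f k‖ ^ 2 := by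
      intro f hf
      refine ((summ_eu (rap_fr hf) 2).mul_left (4 * Real.pi ^ 2)).congr fun k => ?_
      rw [eu_sq]
      ring
    rw [grd_fr hw]
    simp_rw [grd_fr (hu _)]
    rw [← Summable.tsum_finsetSum fun j _ => hsum (hu j), ← tsum_mul_left]
    refine Summable.tsum_le_tsum (fun k => ?_) (hsum hw)
      ((summable_sum fun j _ => hsum (hu j)).mul_left 3)
    rw [← Finset.mul_sum]
    have h2 := mul_le_mul_of_nonneg_left (h1 k)
      (by have := kk_nonneg k; positivity : 0 ≤ 4 * Real.pi ^ 2 * Pool.Agent.W12.MD.R0.kk k)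
    linarith

theorem result : ∃ c : ℝ, 0 < c ∧ ∀ (p : ℝ≥0∞) (q : ℝ), 3 < p → 3 * (p⁻¹).toReal + 2 / q = 1 →
    ∀ ν : ℝ, 0 < ν → ∃ C : ℝ, 0 ≤ C ∧
    ∀ (T A : ℝ) (u : ℝ → V → V) (P : ℝ → V → ℝ) (β E : ℝ → ℝ), IsSol ν T u P →
    (∀ t ∈ Ioo 0 T, 0 ≤ β t ∧ 0 ≤ E t) → IntegrableOn (fun t => β t ^ q) (Ioo 0 T) →
    IntegrableOn E (Ioo 0 T) →
    (∀ᵐ t ∂(volume.restrict (Ioo 0 T)), ∃ (s : ℝ) (Q : Set K3) (a b : Fin 3 → V → ℝ),
      (s = 1 ∨ s = -1) ∧ DimTwo A Q ∧ (∀ k ∈ Q, -k ∈ Q) ∧ ∀ i, Continuous (a i) ∧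
      Continuous (b i) ∧ (∀ x, helPart s Q (u t) x i = a i x + b i x) ∧
      eLpNorm (a i) p (volume.restrict cube) ≤ ENNReal.ofReal (β t) ∧
      ∀ g : V → ℝ, SP g → ∫ x in cube, g x = 0 → ∫ x in cube, (b i x * g x) ^ 2
        ≤ (c * ν) ^ 2 * (∑ j, ∫ x in cube, pd j g x ^ 2) + ν * E t * ∫ x in cube, g x ^ 2) →
    (∀ t ∈ Ico 0 T, crit (u t) ≤ crit (u 0) * Real.exp (C * ((∫ s in Ioo 0 T, β s ^ q)
      + (∫ s in Ioo 0 T, E s) + (A * energy (u 0)) ^ 2))) ∧
    ∃ M, ∀ t ∈ Ico 0 T, ∀ x i, |u t x i| ≤ M := by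
  obtain ⟨c, C, hc, hC, hmain⟩ := main_frm
  refine ⟨c, hc, fun p q hp3 hpq ν hν => ?_⟩
  set θ := th p with hθ
  have hθ0 : 0 ≤ θ := th_nonneg p
  have hθ1 : θ < 1 := th_lt_one hp3
  have hq : q = 2 / (1 - θ) := by
    have h1 : 2 / q = 1 - θ := by
      have : θ = 3 * (p⁻¹).toReal := rfl
      rw [this]
      linarith
    rw [← h1]
    have : q ≠ 0 := by
      intro h0
      rw [h0, div_zero] at h1
      linarith
    field_simp
  obtain ⟨C1, hC10, hC1⟩ := mul_of_Lp hp3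
  obtain ⟨Da, hDa, hfa⟩ := frm_of_mul (θ := θ) (κ := c * ν / 4) hθ0 hθ1 (by positivity)
  obtain ⟨Dw, hDw, hfw⟩ := frm_of_mul (θ := 1 / 2) (κ := c * ν / 4) (by norm_num) (by norm_num)
    (by positivity)
  set K1 := Da * C1 ^ q with hK1
  have hK10 : 0 ≤ K1 := mul_nonneg hDa (Real.rpow_nonneg hC10 _)
  set K2 := 1 / (2 * c) with hK2
  have hK20 : 0 ≤ K2 := by positivity
  set K3' := Dw * 11664 with hK3
  have hK30 : 0 ≤ K3' := by positivity
  refine ⟨C * (K1 + K2 + K3' / (2 * ν)), by positivity, fun T A u P β E h hβE hβi hEi hae => ?_⟩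
  have hβ0 : ∀ t ∈ Ioo 0 T, 0 ≤ β t := fun t ht => (hβE t ht).1
  have hE0 : ∀ t ∈ Ioo 0 T, 0 ≤ E t := fun t ht => (hβE t ht).2
  have hen0 := energy_nonneg (u 0)
  -- the total function
  set G : ℝ → ℝ := fun t => K1 * β t ^ q + K2 * E t
    + K3' * (A ^ 2 * energy (u 0)) * enstrophy (u t) with hG
  have hG0 : ∀ t ∈ Ioo 0 T, 0 ≤ G t := by
    intro t ht
    have h1 := Real.rpow_nonneg (hβ0 t ht) q
    have h2 := hE0 t ht
    have h3 := enstrophy_nonneg (u t)
    simp only [hG]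
    positivity
  have henb : ∀ t ∈ Ico 0 T, ∫ s in (0 : ℝ)..t, enstrophy (u s) ≤ energy (u 0) / (2 * ν) :=
    fun t ht => h.int_enstrophy hν ht
  have heni : IntegrableOn (fun t => enstrophy (u t)) (Ioo 0 T) :=
    intOn_of_bdd h.enstrophy_continuousOn (fun t _ => enstrophy_nonneg _) henb
  have i1 : IntegrableOn (fun t => K1 * β t ^ q) (Ioo 0 T) := hβi.const_mul _
  have i2 : IntegrableOn (fun t => K2 * E t) (Ioo 0 T) := hEi.const_mul _
  have i12 : IntegrableOn (fun t => K1 * β t ^ q + K2 * E t) (Ioo 0 T) := i1.add i2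
  have i3 : IntegrableOn (fun t => K3' * (A ^ 2 * energy (u 0)) * enstrophy (u t)) (Ioo 0 T) :=
    heni.const_mul _
  have hGi : IntegrableOn G (Ioo 0 T) := i12.add i3
  have hmain' := hmain ν hν T u P G h hG0 hGi (by
    filter_upwards [hae, ae_restrict_mem measurableSet_Ioo] with t hs ht
    obtain ⟨s, Q, a, b, hs1, hQ, hQs, hab⟩ := hs
    have hI : t ∈ Ico 0 T := ⟨ht.1.le, ht.2⟩
    have hs1' : |s| = 1 := by rcases hs1 with h | h <;> rw [h] <;> norm_num
    set U : Fin 3 → V → ℝ := fun i y => u t y i with hU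
    have hUs : ∀ i, SP (U i) := fun i => h.sp hI i
    refine ⟨s, hs1', fun i => ?_⟩
    obtain ⟨hac, hbc, heq, hLp, hb2⟩ := hab i
    have hrap : Rap (hco s (fun j => fr (U j)) i) := hco_rap hs1' (fun j => rap_fr (hUs j)) i
    have hherm : ∀ k, hco s (fun j => fr (U j)) i (-k)
        = (starRingEnd ℂ) (hco s (fun j => fr (U j)) i k) := fun k =>
      hco_herm s (fun j k => fr_neg (U j) k) i k
    have hQneg : ∀ k, -k ∈ Q ↔ k ∈ Q := fun k =>
      ⟨fun hk => by have := hQs _ hk; rwa [neg_neg] at this, fun hk => hQs k hk⟩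
    have rin : Rap (cin Q (hco s (fun j => fr (U j)) i)) := rap_of_le hrap (norm_cin_le Q _)
    have rout : Rap (cout Q (hco s (fun j => fr (U j)) i)) := rap_of_le hrap (norm_cout_le Q _)
    have hin : ∀ k, cin Q (hco s (fun j => fr (U j)) i) (-k)
        = (starRingEnd ℂ) (cin Q (hco s (fun j => fr (U j)) i) k) := by
      intro k
      unfold cin
      by_cases hk : k ∈ Q
      · rw [if_pos ((hQneg k).2 hk), if_pos hk, hherm]
      · rw [if_neg (fun h => hk ((hQneg k).1 h)), if_neg hk, map_zero]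
    have hout : ∀ k, cout Q (hco s (fun j => fr (U j)) i) (-k)
        = (starRingEnd ℂ) (cout Q (hco s (fun j => fr (U j)) i) k) := by
      intro k
      unfold cout
      by_cases hk : k ∈ Q
      · rw [if_pos ((hQneg k).2 hk), if_pos hk, map_zero]
      · rw [if_neg (fun h => hk ((hQneg k).1 h)), if_neg hk, hherm]
    set w : V → ℝ := Rs (cin Q (hco s (fun j => fr (U j)) i)) with hw
    have hws : SP w := Rs_sp rin
    have hwf : ∀ k, fr w k = cin Q (hco s (fun j => fr (U j)) i) k := fun k => fr_Rs rin hin k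
    have hos : SP (Rs (cout Q (hco s (fun j => fr (U j)) i))) := Rs_sp rout
    -- decomposition of the helical part
    have hdec : hp s U i = fun x => (a i x + b i x) + w x := by
      have h1 : hp s U i = fun x => Rs (cout Q (hco s (fun j => fr (U j)) i)) x + w x := by
        refine sp_ext (hp_sp hs1' hUs i) (hos.add hws) fun k => ?_
        rw [fr_add' hos hws, fr_Rs rout hout, hwf, fr_hp hs1' hUs]
        unfold cin cout
        by_cases hk : k ∈ Q <;> simp [hk]
      rw [h1]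
      funext x
      rw [← heq x, helPart_eq]
    -- the first piece
    have f1 : Frm (c * ν / 4) (K1 * β t ^ q) (a i) := by
      have h1 := hfa (C1 * β t) (a i) (mul_nonneg hC10 (hβ0 t ht))
        (hC1 (a i) (β t) hac (hβ0 t ht) hLp)
      rw [← hq, Real.mul_rpow hC10 (hβ0 t ht)] at h1
      refine h1.mono le_rfl (le_of_eq ?_)
      rw [hK1]
      ring
    -- the second piece
    have f2 : Frm (c * ν / 2) (K2 * E t) (b i) := by
      refine frm_of_sq (by positivity) hbc fun g hg hg0 => ?_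
      have h1 := hb2 g hg hg0
      rw [← grd_sq, ← nrm_sq g] at h1
      refine h1.trans (le_of_eq ?_)
      rw [hK2]
      field_simp
      ring
    -- the third piece
    have f3 : Frm (c * ν / 4) (K3' * (A ^ 2 * energy (u 0)) * enstrophy (u t)) w := by
      have hA := hQ.nonneg
      have hM := mul_of_thin hQ hws (fun k hk => by rw [hwf]; unfold cin; rw [if_neg hk])
        (by rw [hwf]; unfold cin hco; simp)
      have h1 := hfw _ w (by
        have := nrm_nonneg w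
        have := grd_nonneg w
        positivity) hM
      refine h1.mono le_rfl ?_
      have e1 : (2 / (1 - 1 / 2) : ℝ) = ((4 : ℕ) : ℝ) := by norm_num
      rw [e1, Real.rpow_natCast, mul_pow, mul_pow, mul_pow]
      have e2 : Real.sqrt A ^ 4 = A ^ 2 := by
        rw [show (4 : ℕ) = 2 * 2 by norm_num, pow_mul, Real.sq_sqrt hA]
      have e3 : (nrm w ^ (1 / 2 : ℝ)) ^ 4 = nrm w ^ 2 := by
        rw [← Real.rpow_natCast, ← Real.rpow_mul (nrm_nonneg _), ← Real.rpow_natCast]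
        norm_num
      have e4 : (grd w ^ (1 / 2 : ℝ)) ^ 4 = grd w ^ 2 := by
        rw [← Real.rpow_natCast, ← Real.rpow_mul (grd_nonneg _), ← Real.rpow_natCast]
        norm_num
      rw [e2, e3, e4]
      obtain ⟨g1, g2⟩ := nrm_sq_energy hs1' hUs hws (i := i) (fun k => by
        rw [hwf]; exact norm_cin_le Q _ k)
      have g3 : ∑ j, nrm (U j) ^ 2 = energy (u t) := by
        unfold energy
        exact Finset.sum_congr rfl fun j _ => nrm_sq _
      have g4 : ∑ j, grd (U j) ^ 2 = enstrophy (u t) := by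
        unfold enstrophy
        exact Finset.sum_congr rfl fun j _ => grd_sq _
      rw [g3] at g1
      rw [g4] at g2
      have g5 := h.energy_le hν hI
      have g6 := enstrophy_nonneg (u t)
      have g7 : nrm w ^ 2 * grd w ^ 2 ≤ (3 * energy (u 0)) * (3 * enstrophy (u t)) :=
        mul_le_mul (g1.trans (by linarith)) g2 (sq_nonneg _) (by positivity)
      calc Dw * (6 ^ 4 * A ^ 2 * (nrm w ^ 2 * grd w ^ 2))
          ≤ Dw * (6 ^ 4 * A ^ 2 * ((3 * energy (u 0)) * (3 * enstrophy (u t)))) := by gcongr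
        _ = K3' * (A ^ 2 * energy (u 0)) * enstrophy (u t) := by rw [hK3]; ring
    have f12 := (f1.add f2 hac hbc).add f3 (hac.add hbc) hws.cont
    rw [hdec]
    refine f12.mono (le_of_eq (by ring)) (le_of_eq ?_)
    simp only [hG])
  refine ⟨fun t ht => ?_, hmain'.2⟩
  rw [crit_eq, crit_eq]
  refine (hmain'.1 t ht).trans (mul_le_mul_of_nonneg_left (Real.exp_le_exp.2 ?_) (Zn_nonneg 1 _))
  rw [mul_assoc]
  refine mul_le_mul_of_nonneg_left ?_ hC
  have e1 : ∫ s in Ioo 0 T, G s = K1 * (∫ s in Ioo 0 T, β s ^ q) + K2 * (∫ s in Ioo 0 T, E s)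
      + K3' * (A ^ 2 * energy (u 0)) * ∫ s in Ioo 0 T, enstrophy (u s) := by
    simp only [hG]
    rw [integral_add i12 i3, integral_add i1 i2, integral_const_mul, integral_const_mul,
      integral_const_mul]
  have e2 : ∫ s in Ioo 0 T, enstrophy (u s) ≤ energy (u 0) / (2 * ν) :=
    int_le_of_bdd (by positivity) heni henb
  have b1 : 0 ≤ ∫ s in Ioo 0 T, β s ^ q :=
    setIntegral_nonneg measurableSet_Ioo fun s hs => Real.rpow_nonneg (hβ0 s hs) q
  have b2 : 0 ≤ ∫ s in Ioo 0 T, E s := setIntegral_nonneg measurableSet_Ioo hE0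
  rw [e1]
  have e3 : K3' * (A ^ 2 * energy (u 0)) * ∫ s in Ioo 0 T, enstrophy (u s)
      ≤ K3' * (A ^ 2 * energy (u 0)) * (energy (u 0) / (2 * ν)) :=
    mul_le_mul_of_nonneg_left e2 (by positivity)
  have e4 : K3' * (A ^ 2 * energy (u 0)) * (energy (u 0) / (2 * ν))
      = K3' / (2 * ν) * (A * energy (u 0)) ^ 2 := by ring
  rw [e4] at e3
  set I1 := ∫ s in Ioo 0 T, β s ^ q with hI1
  set I2 := ∫ s in Ioo 0 T, E s with hI2
  set I3 := (A * energy (u 0)) ^ 2 with hI3
  have b3 : 0 ≤ I3 := sq_nonneg _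
  have b4 : 0 ≤ K3' / (2 * ν) := by positivity
  have c1 : 0 ≤ K1 * (I2 + I3) := by positivity
  have c2 : 0 ≤ K2 * (I1 + I3) := by positivity
  have c3 : 0 ≤ K3' / (2 * ν) * (I1 + I2) := by positivity
  have e5 : (K1 + K2 + K3' / (2 * ν)) * (I1 + I2 + I3) = K1 * I1 + K2 * I2 + K3' / (2 * ν) * I3
      + K1 * (I2 + I3) + K2 * (I1 + I3) + K3' / (2 * ν) * (I1 + I2) := by ring
  rw [e5]
  linarith

end Pool.Agent.Results.MP_6bf1e5_an.HelicalSerrin
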